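import Pool.Agent.N534.AS.Frob

/-!
# Asai (tensor induced) power sums of a random elliptic curve over a number field
-/

set_option autoImplicit false

namespace Pool.Agent.N534.AS

open NumberField IsDedekindDomain Finset
open Pool.Agent.H921R2.TatePole (nm two_le_nm below deg nm_eq below_le_nm fiber_card_le below_eq_of_mem)
open Pool.Agent.H341R2.EC (trc csum mk_ne)
open Pool.Agent.Y722.HS (EM red EM_mono EM_const p_pos)
open Pool.Agent.Y722.LS (EM_mul)
open Pool.Agent.N534.EC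
open Pool.Agent.N534.LL (liftp red_liftp)
open Pool.Agent.N534.PS (Pow p_two)

variable {K : Type} [Field K] [NumberField K]

/-- the trace of the `k`-th power of Frobenius at `p` on the tensor induction -/
noncomputable def ta (a b : 𝓞 K) (p : Nat.Primes) (k : ℕ) : ℝ :=
  ∏ v : {v : HeightOneSpectrum (𝓞 K) // below v = p},
    ps (trc (shm a b) v.1) (nm v.1) (k / Nat.gcd k (deg v.1)) ^ Nat.gcd k (deg v.1)

theorem ta_one (a b : 𝓞 K) (p : Nat.Primes) : ta a b p 1 =
    ∏ v : {v : HeightOneSpectrum (𝓞 K) // below v = p}, (trc (shm a b) v.1 : ℝ) := by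
  unfold ta
  refine Finset.prod_congr rfl fun v _ => ?_
  rw [Nat.gcd_one_left, pow_one, Nat.div_one, ps_one]

theorem ta_le (a b : 𝓞 K) (p : Nat.Primes) (h5 : 5 ≤ (p : ℕ)) (k : ℕ) :
    |ta a b p k| ≤ 2 ^ Module.finrank ℚ K * ((p : ℕ) : ℝ) ^ ((k : ℝ) * ((Module.finrank ℚ K : ℝ) / 2)) := by
  have hp2 : (2 : ℝ) ≤ (p : ℕ) := by exact_mod_cast p.2.two_le
  have hp0 : (0 : ℝ) < (p : ℕ) := by linarith
  unfold ta
  rw [Finset.abs_prod]
  have h1 : ∀ v : {v : HeightOneSpectrum (𝓞 K) // below v = p},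
      |ps (trc (shm a b) v.1) (nm v.1) (k / Nat.gcd k (deg v.1)) ^ Nat.gcd k (deg v.1)| ≤
        2 ^ deg v.1 * Real.sqrt (nm v.1) ^ k := by
    intro v
    have h6 := six_notMem h5 v.1 v.2
    have h2 := ps_le (trc_hasse (shm a b) v.1 h6) (k / Nat.gcd k (deg v.1))
    have hdeg := (nm_eq v.1).2.1
    set g := Nat.gcd k (deg v.1) with hg
    have hg1 : g ≤ deg v.1 := Nat.gcd_le_right _ hdeg
    rw [abs_pow]
    have h3 : |ps (trc (shm a b) v.1) (nm v.1) (k / g)| ^ g ≤ (2 * Real.sqrt (nm v.1) ^ (k / g)) ^ g := by gcongr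
    refine h3.trans ?_
    rw [mul_pow, ← pow_mul, Nat.div_mul_cancel (Nat.gcd_dvd_left _ _)]
    have h4 : (2 : ℝ) ^ g ≤ 2 ^ deg v.1 := pow_le_pow_right₀ (by norm_num) hg1
    gcongr
  refine (Finset.prod_le_prod (fun v _ => abs_nonneg _) fun v _ => h1 v).trans ?_
  rw [Finset.prod_mul_distrib, Finset.prod_pow_eq_pow_sum, Finset.prod_pow]
  have h2 : ∏ v : {v : HeightOneSpectrum (𝓞 K) // below v = p}, Real.sqrt (nm v.1) ≤
      ((p : ℕ) : ℝ) ^ ((Module.finrank ℚ K : ℝ) / 2) := by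
    have h3 : ∏ v : {v : HeightOneSpectrum (𝓞 K) // below v = p}, Real.sqrt (nm v.1) =
        Real.sqrt (∏ v : {v : HeightOneSpectrum (𝓞 K) // below v = p}, (nm v.1 : ℝ)) := by
      rw [Real.sqrt_eq_rpow, ← Real.finsetProd_rpow _ _ (fun v _ => by positivity)]
      refine Finset.prod_congr rfl fun v _ => ?_
      rw [Real.sqrt_eq_rpow]
    rw [h3]
    have h4 : (∏ v : {v : HeightOneSpectrum (𝓞 K) // below v = p}, (nm v.1 : ℝ)) ≤
        ((p : ℕ) : ℝ) ^ Module.finrank ℚ K := by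
      have := prod_nm_le (K := K) p
      exact_mod_cast this
    have h5 := Real.sqrt_le_sqrt h4
    refine h5.trans (le_of_eq ?_)
    rw [Real.sqrt_eq_rpow, ← Real.rpow_natCast, ← Real.rpow_mul hp0.le]
    congr 1
    ring
  have h3 : (∏ v : {v : HeightOneSpectrum (𝓞 K) // below v = p}, Real.sqrt (nm v.1)) ^ k ≤
      ((p : ℕ) : ℝ) ^ ((k : ℝ) * ((Module.finrank ℚ K : ℝ) / 2)) := by
    rw [mul_comm, Real.rpow_mul hp0.le, Real.rpow_natCast]
    have h4 : 0 ≤ ∏ v : {v : HeightOneSpectrum (𝓞 K) // below v = p}, Real.sqrt (nm v.1) :=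
      Finset.prod_nonneg fun v _ => Real.sqrt_nonneg _
    gcongr
  have h4 : (2 : ℝ) ^ ∑ v : {v : HeightOneSpectrum (𝓞 K) // below v = p}, deg v.1 ≤
      2 ^ Module.finrank ℚ K := pow_le_pow_right₀ (by norm_num) (sum_deg_le p)
  have h5 : 0 ≤ (∏ v : {v : HeightOneSpectrum (𝓞 K) // below v = p}, Real.sqrt (nm v.1)) ^ k := by positivity
  gcongr

theorem ta_congr {a b a' b' : 𝓞 K} (p : Nat.Primes) (ha : ((p : ℕ) : 𝓞 K) ∣ a - a')
    (hb : ((p : ℕ) : 𝓞 K) ∣ b - b') (k : ℕ) : ta a b p k = ta a' b' p k := by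
  unfold ta
  refine Finset.prod_congr rfl fun v _ => ?_
  have h1 := (nm_eq v.1).2.2
  rw [v.2] at h1
  rw [trc_congr v.1 (Ideal.mem_of_dvd v.1.asIdeal ha h1) (Ideal.mem_of_dvd v.1.asIdeal hb h1)]

/-- a prime number as an element of the type of the primes -/
def mkP (p : ℕ) (h : p.Prime) : Nat.Primes := ⟨p, h⟩

section
variable {ι : Type} [Fintype ι] [DecidableEq ι]

open Classical in
/-- the power sums as functions of the residue classes -/
noncomputable def TA (a b : (ι → ℤ) → 𝓞 K) (p : ℕ) (k : ℕ) (r : ι → ZMod p) : ℝ :=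
  if h : p.Prime then ta (a (liftp r)) (b (liftp r)) (mkP p h) k else 0

/-- the exceptional classes -/
def BA (S : Finset ℕ) (a b : (ι → ℤ) → 𝓞 K) (p : ℕ) (r : ι → ZMod p) : Prop :=
  p ∈ S ∨ ∃ v : HeightOneSpectrum (𝓞 K), (p : 𝓞 K) ∈ v.asIdeal ∧ dd (a (liftp r)) (b (liftp r)) ∈ v.asIdeal

theorem TA_prime (a b : (ι → ℤ) → 𝓞 K) (pp : Nat.Primes) (k : ℕ) (r : ι → ZMod (pp : ℕ)) :
    TA a b (pp : ℕ) k r = ta (a (liftp r)) (b (liftp r)) pp k := by
  unfold TA
  rw [dif_pos pp.2]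
  rfl

/-- a constant -/
noncomputable def DA (K : Type) [Field K] [NumberField K] (S : Finset ℕ) : ℝ :=
  2 ^ Module.finrank ℚ K + 2 * dK K + ∑ p ∈ S, (p : ℝ)

theorem one_le_DA (S : Finset ℕ) : 1 ≤ DA K S := by
  unfold DA
  have h1 : (1 : ℝ) ≤ 2 ^ Module.finrank ℚ K := one_le_pow₀ (by norm_num)
  have h2 := dK_nonneg (K := K)
  have h3 : (0 : ℝ) ≤ ∑ p ∈ S, (p : ℝ) := Finset.sum_nonneg fun _ _ => by positivity
  linarith

theorem pow_le_DA (S : Finset ℕ) : (2 : ℝ) ^ Module.finrank ℚ K ≤ DA K S := by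
  unfold DA
  have h2 := dK_nonneg (K := K)
  have h3 : (0 : ℝ) ≤ ∑ p ∈ S, (p : ℝ) := Finset.sum_nonneg fun _ _ => by positivity
  linarith

/-- translations of the constant coefficient at one prime `v` -/
theorem exists_shift {a b : (ι → ℤ) → 𝓞 K} (h : Shift a b) (p : Nat.Primes) [Fact (p : ℕ).Prime]
    (v : {v : HeightOneSpectrum (𝓞 K) // below v = p}) :
    ∃ e : (𝓞 K ⧸ v.1.asIdeal) → ι → ZMod (p : ℕ), ∀ (y : 𝓞 K ⧸ v.1.asIdeal) (r : ι → ZMod (p : ℕ)),
      (∀ v' : {v : HeightOneSpectrum (𝓞 K) // below v = p},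
        a (liftp (r + e y)) - a (liftp r) ∈ v'.1.asIdeal) ∧
      (∀ v' : {v : HeightOneSpectrum (𝓞 K) // below v = p}, v' ≠ v →
        b (liftp (r + e y)) - b (liftp r) ∈ v'.1.asIdeal) ∧
      Ideal.Quotient.mk v.1.asIdeal (b (liftp (r + e y))) = Ideal.Quotient.mk v.1.asIdeal (b (liftp r)) + y := by
  choose x hx1 hx2 using fun y => exists_elt p v y
  choose e he using fun y => h.mod (p : ℕ) (x y)
  refine ⟨e, fun y r => ?_⟩
  obtain ⟨h1, h2⟩ := he y r
  have hmem : ∀ v' : {v : HeightOneSpectrum (𝓞 K) // below v = p}, ((p : ℕ) : 𝓞 K) ∈ v'.1.asIdeal := by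
    intro v'
    have := (nm_eq v'.1).2.2
    rwa [v'.2] at this
  refine ⟨fun v' => Ideal.mem_of_dvd _ h1 (hmem v'), fun v' hv' => ?_, ?_⟩
  · have h3 := Ideal.mem_of_dvd _ h2 (hmem v')
    have h4 : b (liftp (r + e y)) - b (liftp r) = (b (liftp (r + e y)) - (b (liftp r) + x y)) + x y := by ring
    rw [h4]
    exact Ideal.add_mem _ h3 (hx2 y v' hv')
  · have h3 : Ideal.Quotient.mk v.1.asIdeal (b (liftp (r + e y))) =
        Ideal.Quotient.mk v.1.asIdeal (b (liftp r) + x y) :=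
      Ideal.Quotient.eq.mpr (Ideal.mem_of_dvd _ h2 (hmem v))
    rw [h3, map_add, hx1 y]

theorem mean_TA {a b : (ι → ℤ) → 𝓞 K} (h : Shift a b) (pp : Nat.Primes) [hp : Fact (pp : ℕ).Prime]
    (h5 : 5 ≤ (pp : ℕ)) : EM (pp : ℕ) (TA a b (pp : ℕ) 1) = 0 := by
  classical
  obtain ⟨v⟩ := exists_above (K := K) pp
  obtain ⟨e, he⟩ := exists_shift h pp v
  have h1 := EM_shift_fam (ι := ι) (pp : ℕ) e (TA a b (pp : ℕ) 1)
  rw [h1]
  have h2 : (fun r : ι → ZMod (pp : ℕ) => (∑ y : 𝓞 K ⧸ v.1.asIdeal, TA a b (pp : ℕ) 1 (r + e y)) /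
      (Fintype.card (𝓞 K ⧸ v.1.asIdeal) : ℝ)) = fun _ => 0 := by
    funext r
    have h6 := six_notMem h5 v.1 v.2
    have h6' : (6 : 𝓞 K ⧸ v.1.asIdeal) ≠ 0 := by
      have := mk_ne h6
      rwa [map_ofNat] at this
    have h3 : ∀ y : 𝓞 K ⧸ v.1.asIdeal, TA a b (pp : ℕ) 1 (r + e y) =
        -(csum (-48 * Ideal.Quotient.mk v.1.asIdeal (a (liftp r)))
          (-864 * (Ideal.Quotient.mk v.1.asIdeal (b (liftp r)) + y)) : ℝ) *
        ∏ v' ∈ Finset.univ.erase v, (trc (shm (a (liftp r)) (b (liftp r))) v'.1 : ℝ) := by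
      intro y
      obtain ⟨g1, g2, g3⟩ := he y r
      rw [TA_prime a b pp, ta_one, ← Finset.mul_prod_erase Finset.univ _ (Finset.mem_univ v)]
      congr 1
      · rw [trc_mk _ _ v.1 h6, g3, Ideal.Quotient.eq.mpr (g1 v)]
        push_cast
        rfl
      · refine Finset.prod_congr rfl fun v' hv' => ?_
        rw [trc_congr v'.1 (g1 v') (g2 v' (Finset.ne_of_mem_erase hv'))]
    rw [Finset.sum_congr rfl fun y _ => h3 y, ← Finset.sum_mul, Finset.sum_neg_distrib]
    have h4 := csum_sum h6' (-48 * Ideal.Quotient.mk v.1.asIdeal (a (liftp r)))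
      (Ideal.Quotient.mk v.1.asIdeal (b (liftp r)))
    have h5 : (∑ y : 𝓞 K ⧸ v.1.asIdeal, (csum (-48 * Ideal.Quotient.mk v.1.asIdeal (a (liftp r)))
          (-864 * (Ideal.Quotient.mk v.1.asIdeal (b (liftp r)) + y)) : ℝ)) = 0 := by
      rw [← Int.cast_sum, h4, Int.cast_zero]
    rw [h5, neg_zero, zero_mul, zero_div]
  rw [h2, EM_const]

/-- the number of singular members in a family `y² = x³ + a x + b + y` over a finite field -/
theorem card_sing {k : Type*} [Field k] [Fintype k] [DecidableEq k] (h6 : (6 : k) ≠ 0) (a b : k) :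
    (Finset.univ.filter fun y : k => 6 * (4 * a ^ 3 + 27 * (b + y) ^ 2) = 0).card ≤ 2 := by
  have h3 : (3 : k) ≠ 0 := by
    intro h; apply h6
    have : (6 : k) = 2 * 3 := by norm_num
    rw [this, h, mul_zero]
  have h27 : (27 : k) ≠ 0 := by
    have : (27 : k) = 3 ^ 3 := by norm_num
    rw [this]
    exact pow_ne_zero _ h3
  have h2 : (Finset.univ.filter fun y : k => 6 * (4 * a ^ 3 + 27 * (b + y) ^ 2) = 0) ⊆
      ((Polynomial.C 27 * (Polynomial.X + Polynomial.C b) ^ 2 +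
        Polynomial.C (4 * a ^ 3) : Polynomial k)).roots.toFinset := by
    intro s hs
    rw [Finset.mem_filter] at hs
    have h3 := (mul_eq_zero.mp hs.2).resolve_left h6
    rw [Multiset.mem_toFinset, Polynomial.mem_roots']
    constructor
    · intro h0
      have h4 := congrArg (fun q : Polynomial k => q.coeff 2) h0
      have h5 : (Polynomial.C 27 * (Polynomial.X + Polynomial.C b) ^ 2 +
        Polynomial.C (4 * a ^ 3) : Polynomial k) =
          Polynomial.C 27 * Polynomial.X ^ 2 + Polynomial.C (54 * b) * Polynomial.X +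
          Polynomial.C (27 * b ^ 2 + 4 * a ^ 3) := by
        simp only [map_mul, map_add, map_pow]
        have : (Polynomial.C (54 : k)) = 2 * Polynomial.C 27 := by
          rw [← Polynomial.C_ofNat, ← Polynomial.C_mul]
          congr 1
          norm_num
        rw [this]
        ring
      rw [h5] at h4
      simp only [Polynomial.coeff_add, Polynomial.coeff_C_mul, Polynomial.coeff_X_pow,
        Polynomial.coeff_zero, Polynomial.coeff_X, Polynomial.coeff_C] at h4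
      norm_num at h4
      exact h27 h4
    · simp only [Polynomial.IsRoot, Polynomial.eval_add, Polynomial.eval_mul, Polynomial.eval_C,
        Polynomial.eval_pow, Polynomial.eval_X]
      rw [← h3]
      ring
  refine (Finset.card_le_card h2).trans ((Multiset.toFinset_card_le _).trans
    ((Polynomial.card_roots' _).trans ?_))
  compute_degree

theorem bad_one {a b : (ι → ℤ) → 𝓞 K} (h : Shift a b) (pp : Nat.Primes) [hp : Fact (pp : ℕ).Prime]
    (h5 : 5 ≤ (pp : ℕ)) (v : {v : HeightOneSpectrum (𝓞 K) // below v = pp}) :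
    EM (pp : ℕ) (fun r : ι → ZMod (pp : ℕ) => open Classical in
      if dd (a (liftp r)) (b (liftp r)) ∈ v.1.asIdeal then (1 : ℝ) else 0) ≤ 2 / (pp : ℕ) := by
  classical
  have hp0 := p_pos (p := (pp : ℕ))
  obtain ⟨e, he⟩ := exists_shift h pp v
  have h1 := EM_shift_fam (ι := ι) (pp : ℕ) e (fun r : ι → ZMod (pp : ℕ) =>
      if dd (a (liftp r)) (b (liftp r)) ∈ v.1.asIdeal then (1 : ℝ) else 0)
  rw [h1]
  have h6 := six_notMem h5 v.1 v.2
  have h6' : (6 : 𝓞 K ⧸ v.1.asIdeal) ≠ 0 := by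
    have := mk_ne h6
    rwa [map_ofNat] at this
  have hcard : (Fintype.card (𝓞 K ⧸ v.1.asIdeal) : ℝ) = nm v.1 := by
    rw [Pool.Agent.H341R2.card_v]
  have hq : ((pp : ℕ) : ℝ) ≤ nm v.1 := nm_ge v.1 v.2
  have h2 : ∀ r : ι → ZMod (pp : ℕ), (∑ y : 𝓞 K ⧸ v.1.asIdeal,
      (if dd (a (liftp (r + e y))) (b (liftp (r + e y))) ∈ v.1.asIdeal then (1 : ℝ) else 0)) /
      (Fintype.card (𝓞 K ⧸ v.1.asIdeal) : ℝ) ≤ 2 / (pp : ℕ) := by
    intro r
    rw [hcard, Finset.sum_ite, Finset.sum_const_zero, add_zero, Finset.sum_const, nsmul_eq_mul, mul_one]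
    have h3 : (Finset.univ.filter fun y : 𝓞 K ⧸ v.1.asIdeal =>
        dd (a (liftp (r + e y))) (b (liftp (r + e y))) ∈ v.1.asIdeal) ⊆
        (Finset.univ.filter fun y : 𝓞 K ⧸ v.1.asIdeal =>
          6 * (4 * (Ideal.Quotient.mk v.1.asIdeal (a (liftp r))) ^ 3 +
            27 * (Ideal.Quotient.mk v.1.asIdeal (b (liftp r)) + y) ^ 2) = 0) := by
      intro y hy
      rw [Finset.mem_filter] at hy ⊢
      refine ⟨Finset.mem_univ _, ?_⟩
      obtain ⟨g1, g2, g3⟩ := he y r
      have h4 := hy.2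
      rw [← Ideal.Quotient.eq_zero_iff_mem] at h4
      unfold dd at h4
      simp only [map_mul, map_add, map_pow, map_ofNat] at h4
      rw [g3, Ideal.Quotient.eq.mpr (g1 v)] at h4
      exact h4
    have h4 := (Finset.card_le_card h3).trans (card_sing h6' _ _)
    have h5 : (((Finset.univ.filter fun y : 𝓞 K ⧸ v.1.asIdeal =>
        dd (a (liftp (r + e y))) (b (liftp (r + e y))) ∈ v.1.asIdeal).card : ℕ) : ℝ) ≤ 2 := by
      exact_mod_cast h4
    exact div_le_div₀ (by norm_num) h5 hp0 hq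
  refine (EM_mono (pp : ℕ) _ (fun _ => 2 / ((pp : ℕ) : ℝ)) h2).trans ?_
  rw [EM_const]

theorem bad_all {a b : (ι → ℤ) → 𝓞 K} (h : Shift a b) (S : Finset ℕ) (pp : Nat.Primes)
    [hp : Fact (pp : ℕ).Prime] (h5 : 5 ≤ (pp : ℕ)) :
    EM (pp : ℕ) (fun r : ι → ZMod (pp : ℕ) => open Classical in if BA S a b (pp : ℕ) r then (1 : ℝ) else 0) ≤
      DA K S / (pp : ℕ) := by
  classical
  have hp0 := p_pos (p := (pp : ℕ))
  have hS : (0 : ℝ) ≤ ∑ p ∈ S, (p : ℝ) := Finset.sum_nonneg fun _ _ => by positivity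
  have hd := dK_nonneg (K := K)
  by_cases hpS : (pp : ℕ) ∈ S
  · have h1 : EM (pp : ℕ) (fun r : ι → ZMod (pp : ℕ) => if BA S a b (pp : ℕ) r then (1 : ℝ) else 0) ≤
        EM (pp : ℕ) (fun _ : ι → ZMod (pp : ℕ) => (1 : ℝ)) := by
      apply EM_mono
      intro r
      split_ifs <;> norm_num
    refine h1.trans ?_
    rw [EM_const, le_div_iff₀ hp0, one_mul]
    have h2 := Finset.single_le_sum (f := fun p : ℕ => (p : ℝ)) (fun _ _ => by positivity) hpS
    unfold DA
    have h3 : (0 : ℝ) ≤ 2 ^ Module.finrank ℚ K := by positivity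
    linarith
  · have h1 : EM (pp : ℕ) (fun r : ι → ZMod (pp : ℕ) => if BA S a b (pp : ℕ) r then (1 : ℝ) else 0) ≤
        EM (pp : ℕ) (fun r : ι → ZMod (pp : ℕ) => ∑ v : {v : HeightOneSpectrum (𝓞 K) // below v = pp},
          if dd (a (liftp r)) (b (liftp r)) ∈ v.1.asIdeal then (1 : ℝ) else 0) := by
      apply EM_mono
      intro r
      split_ifs with h2
      · obtain ⟨v, hv1, hv2⟩ := h2.resolve_left hpS
        have h3 : below v = pp := below_eq_of_mem hv1
        have h4 := Finset.single_le_sum (s := Finset.univ)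
          (f := fun v : {v : HeightOneSpectrum (𝓞 K) // below v = pp} =>
            if dd (a (liftp r)) (b (liftp r)) ∈ v.1.asIdeal then (1 : ℝ) else 0)
          (fun v _ => by split_ifs <;> norm_num) (Finset.mem_univ ⟨v, h3⟩)
        simp only [if_pos hv2] at h4
        exact h4
      · exact Finset.sum_nonneg fun v _ => by split_ifs <;> norm_num
    refine h1.trans ?_
    rw [EM_sum']
    have h2 := sum_fib_le (K := K) pp
      (fun v => EM (pp : ℕ) (fun r : ι → ZMod (pp : ℕ) =>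
        if dd (a (liftp r)) (b (liftp r)) ∈ v.1.asIdeal then (1 : ℝ) else 0))
      (2 / (pp : ℕ)) (by positivity) (fun v => bad_one h pp h5 v)
    refine h2.trans ?_
    rw [mul_div_assoc']
    unfold DA
    have h3 : (0 : ℝ) ≤ 2 ^ Module.finrank ℚ K := by positivity
    gcongr
    linarith

/-- **The Asai power sums of a random curve.** -/
theorem powA {a b : (ι → ℤ) → 𝓞 K} (h : Shift a b) (S : Finset ℕ) :
    Pow (DA K S) (Module.finrank ℚ K) 5 (TA a b) (BA S a b) where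
  D1 := one_le_DA S
  bdk := by
    intro p hp h5 k _ r _
    have h1 := ta_le (a (liftp r)) (b (liftp r)) (mkP p hp.out) h5 k
    have h2 : TA a b p k r = ta (a (liftp r)) (b (liftp r)) (mkP p hp.out) k :=
      TA_prime a b (mkP p hp.out) k r
    rw [h2]
    refine h1.trans ?_
    have := pow_le_DA (K := K) S
    exact mul_le_mul_of_nonneg_right this (by positivity)
  bd1 := by
    intro p hp h5 r
    have h1 := ta_le (a (liftp r)) (b (liftp r)) (mkP p hp.out) h5 1
    have h2 : TA a b p 1 r = ta (a (liftp r)) (b (liftp r)) (mkP p hp.out) 1 :=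
      TA_prime a b (mkP p hp.out) 1 r
    rw [h2]
    refine h1.trans ?_
    have h1 := pow_le_DA (K := K) S
    rw [Nat.cast_one, one_mul]
    exact mul_le_mul_of_nonneg_right h1 (by positivity)
  mean := by
    intro p hp h5
    have hfp : Fact ((mkP p hp.out : Nat.Primes) : ℕ).Prime := hp
    have h1 : EM p (TA a b p 1) = 0 := mean_TA h (mkP p hp.out) h5
    rw [h1, abs_zero]
    have := one_le_DA (K := K) S
    positivity
  bad := by
    intro p hp h5
    have hfp : Fact ((mkP p hp.out : Nat.Primes) : ℕ).Prime := hp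
    exact bad_all h S (mkP p hp.out) h5

end

end Pool.Agent.N534.AS
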