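import Pool.Agent.N534.PS.Gen
import Pool.Agent.N534.EC.Laws

/-!
# Frobenius eigenvalues, tensor induction, shifts at one prime
-/

set_option autoImplicit false

namespace Pool.Agent.N534.AS

open NumberField IsDedekindDomain Finset
open Pool.Agent.H921R2.TatePole (nm two_le_nm below deg nm_eq below_le_nm fiber_card_le below_eq_of_mem)
open Pool.Agent.H341R2.EC (trc csum mk_ne)
open Pool.Agent.Y722.HS (EM red EM_mono EM_const p_pos)
open Pool.Agent.Y722.LS (EM_mul)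
open Pool.Agent.N534.EC
open Pool.Agent.N534.LL (liftp red_liftp)

/-! ### The Frobenius eigenvalue -/

/-- the root `(a + √(a² - 4 q)) / 2` of `X² - a X + q` -/
noncomputable def fr (a : ℤ) (q : ℕ) : ℂ := ((a : ℂ) + Complex.I * ((Real.sqrt (4 * q - a ^ 2) : ℝ) : ℂ)) / 2

/-- the sum of the `k`-th powers of the two eigenvalues -/
noncomputable def ps (a : ℤ) (q k : ℕ) : ℝ := 2 * ((fr a q) ^ k).re

theorem sq_le {a : ℤ} {q : ℕ} (h : |(a : ℝ)| ≤ 2 * Real.sqrt q) : (a : ℝ) ^ 2 ≤ 4 * q := by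
  have h1 : |(a : ℝ)| ^ 2 ≤ (2 * Real.sqrt q) ^ 2 := by gcongr
  rw [sq_abs, mul_pow, Real.sq_sqrt (by positivity)] at h1
  linarith

theorem norm_fr {a : ℤ} {q : ℕ} (h : |(a : ℝ)| ≤ 2 * Real.sqrt q) : ‖fr a q‖ = Real.sqrt q := by
  have h1 := sq_le h
  have h2 : Complex.normSq (fr a q) = q := by
    unfold fr
    rw [Complex.normSq_apply]
    have e1 : (((a : ℂ) + Complex.I * ((Real.sqrt (4 * q - a ^ 2) : ℝ) : ℂ)) / 2).re = (a : ℝ) / 2 := by
      simp
    have e2 : (((a : ℂ) + Complex.I * ((Real.sqrt (4 * q - a ^ 2) : ℝ) : ℂ)) / 2).im =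
        Real.sqrt (4 * q - a ^ 2) / 2 := by
      simp
    rw [e1, e2]
    have h3 := Real.mul_self_sqrt (by linarith : (0 : ℝ) ≤ 4 * q - (a : ℝ) ^ 2)
    nlinarith
  have h3 : ‖fr a q‖ ^ 2 = q := by rw [Complex.sq_norm, h2]
  rw [← h3, Real.sqrt_sq (norm_nonneg _)]

theorem ps_one (a : ℤ) (q : ℕ) : ps a q 1 = a := by
  unfold ps fr
  rw [pow_one]
  simp
  ring

theorem ps_le {a : ℤ} {q : ℕ} (h : |(a : ℝ)| ≤ 2 * Real.sqrt q) (k : ℕ) :
    |ps a q k| ≤ 2 * Real.sqrt q ^ k := by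
  unfold ps
  rw [abs_mul, abs_of_pos (by norm_num : (0 : ℝ) < 2)]
  have h1 := Complex.abs_re_le_norm (fr a q ^ k)
  rw [norm_pow, norm_fr h] at h1
  linarith

/-! ### Primes above `p` -/

section
variable {K : Type} [Field K] [NumberField K]

theorem prod_nm_le (p : Nat.Primes) :
    ∏ v : {v : HeightOneSpectrum (𝓞 K) // below v = p}, nm v.1 ≤ (p : ℕ) ^ Module.finrank ℚ K := by
  classical
  set G : Finset (HeightOneSpectrum (𝓞 K)) :=
    (Finset.univ : Finset {v : HeightOneSpectrum (𝓞 K) // below v = p}).map (Function.Embedding.subtype _) with hG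
  have hGm : ∀ v ∈ G, below v = p := by
    intro v hv
    rw [hG, Finset.mem_map] at hv
    obtain ⟨u, _, rfl⟩ := hv
    exact u.2
  have hdvd : (∏ v ∈ G, v.asIdeal) ∣ Ideal.span {(((p : ℕ) : 𝓞 K))} := by
    refine Finset.prod_dvd_of_isRelPrime ?_ ?_
    · intro v _ u _ hvu
      rw [Function.onFun]
      have hne : v.asIdeal ≠ u.asIdeal := fun h => hvu (HeightOneSpectrum.ext h)
      have h1 : IsCoprime v.asIdeal u.asIdeal := by
        rw [Ideal.isCoprime_iff_sup_eq]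
        exact (v.isPrime.isMaximal v.ne_bot).coprime_of_ne (u.isPrime.isMaximal u.ne_bot) hne
      exact h1.isRelPrime
    · intro v hv
      rw [Ideal.dvd_iff_le, Ideal.span_singleton_le_iff_mem]
      have := (nm_eq v).2.2
      rwa [hGm v hv] at this
  have h2 : Ideal.absNorm (∏ v ∈ G, v.asIdeal) ∣ Ideal.absNorm (Ideal.span {(((p : ℕ) : 𝓞 K))}) :=
    map_dvd Ideal.absNorm hdvd
  rw [Ideal.absNorm_span_natCast, map_prod, RingOfIntegers.rank] at h2
  have h3 := Nat.le_of_dvd (pow_pos p.prop.pos _) h2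
  rw [hG, Finset.prod_map] at h3
  exact h3

theorem sum_deg_le (p : Nat.Primes) :
    ∑ v : {v : HeightOneSpectrum (𝓞 K) // below v = p}, deg v.1 ≤ Module.finrank ℚ K := by
  have h1 := prod_nm_le (K := K) p
  have h2 : ∏ v : {v : HeightOneSpectrum (𝓞 K) // below v = p}, nm v.1 =
      (p : ℕ) ^ ∑ v : {v : HeightOneSpectrum (𝓞 K) // below v = p}, deg v.1 := by
    rw [← Finset.prod_pow_eq_pow_sum]
    refine Finset.prod_congr rfl fun v _ => ?_
    have := (nm_eq v.1).1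
    rwa [v.2] at this
  rw [h2] at h1
  exact (Nat.pow_le_pow_iff_right p.prop.one_lt).mp h1

theorem exists_above (p : Nat.Primes) : Nonempty {v : HeightOneSpectrum (𝓞 K) // below v = p} := by
  have h1 : Ideal.span {(((p : ℕ) : 𝓞 K))} ≠ ⊤ := by
    intro h
    have h2 := congrArg Ideal.absNorm h
    rw [Ideal.absNorm_span_natCast, Ideal.absNorm_top, RingOfIntegers.rank] at h2
    have h3 : 0 < Module.finrank ℚ K := Module.finrank_pos
    have h4 := (Nat.pow_eq_one.mp h2).resolve_right h3.ne'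
    exact p.2.one_lt.ne' h4
  obtain ⟨M, hM, hle⟩ := Ideal.exists_le_maximal _ h1
  have hpM : ((p : ℕ) : 𝓞 K) ∈ M := hle (Ideal.mem_span_singleton_self _)
  have hne : M ≠ ⊥ := by
    rintro rfl
    rw [Ideal.mem_bot] at hpM
    exact p.2.ne_zero (by exact_mod_cast hpM)
  exact ⟨⟨⟨M, hM.isPrime, hne⟩, below_eq_of_mem hpM⟩⟩

/-- an element with given residue at one prime above `p` and divisible by the others -/
theorem exists_elt (p : Nat.Primes) (v : {v : HeightOneSpectrum (𝓞 K) // below v = p}) (y : 𝓞 K ⧸ v.1.asIdeal) :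
    ∃ x : 𝓞 K, Ideal.Quotient.mk v.1.asIdeal x = y ∧
      ∀ v' : {v : HeightOneSpectrum (𝓞 K) // below v = p}, v' ≠ v → x ∈ v'.1.asIdeal := by
  classical
  obtain ⟨y0, rfl⟩ := Ideal.Quotient.mk_surjective y
  have hcop : Pairwise (Function.onFun IsCoprime
      fun v : {v : HeightOneSpectrum (𝓞 K) // below v = p} => v.1.asIdeal) := by
    intro v u hvu
    rw [Function.onFun]
    have hne : v.1.asIdeal ≠ u.1.asIdeal := fun h => hvu (Subtype.ext (HeightOneSpectrum.ext h))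
    rw [Ideal.isCoprime_iff_sup_eq]
    exact (v.1.isPrime.isMaximal v.1.ne_bot).coprime_of_ne (u.1.isPrime.isMaximal u.1.ne_bot) hne
  obtain ⟨x, hx⟩ := Ideal.exists_forall_sub_mem_ideal hcop (fun v' => if v' = v then y0 else 0)
  refine ⟨x, ?_, fun v' hv' => ?_⟩
  · have := hx v
    rw [if_pos rfl] at this
    exact Ideal.Quotient.eq.mpr this
  · have := hx v'
    rw [if_neg hv', sub_zero] at this
    exact this

/-! ### The traces of the short model -/

theorem trc_mk (a b : 𝓞 K) (v : HeightOneSpectrum (𝓞 K)) (h6 : (6 : 𝓞 K) ∉ v.asIdeal) :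
    trc (shm a b) v = -csum (-48 * Ideal.Quotient.mk v.asIdeal a) (-864 * Ideal.Quotient.mk v.asIdeal b) := by
  rw [trc_eq (shm a b) v h6]
  have h1 : (Pool.Agent.H341R2.EC.red v (shm a b v)).c₄ = -48 * Ideal.Quotient.mk v.asIdeal a := by
    unfold Pool.Agent.H341R2.EC.red shm
    simp only [WeierstrassCurve.c₄, WeierstrassCurve.b₂, WeierstrassCurve.b₄, WeierstrassCurve.map, map_zero]
    ring
  have h2 : (Pool.Agent.H341R2.EC.red v (shm a b v)).c₆ = -864 * Ideal.Quotient.mk v.asIdeal b := by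
    unfold Pool.Agent.H341R2.EC.red shm
    simp only [WeierstrassCurve.c₆, WeierstrassCurve.b₂, WeierstrassCurve.b₄, WeierstrassCurve.b₆,
      WeierstrassCurve.map, map_zero]
    ring
  rw [h1, h2]

theorem trc_congr {a b a' b' : 𝓞 K} (v : HeightOneSpectrum (𝓞 K)) (ha : a - a' ∈ v.asIdeal)
    (hb : b - b' ∈ v.asIdeal) : trc (shm a b) v = trc (shm a' b') v := by
  have ea : Ideal.Quotient.mk v.asIdeal a = Ideal.Quotient.mk v.asIdeal a' := Ideal.Quotient.eq.mpr ha
  have eb : Ideal.Quotient.mk v.asIdeal b = Ideal.Quotient.mk v.asIdeal b' := Ideal.Quotient.eq.mpr hb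
  have er : Pool.Agent.H341R2.EC.red v (shm a b v) = Pool.Agent.H341R2.EC.red v (shm a' b' v) := by
    unfold Pool.Agent.H341R2.EC.red shm WeierstrassCurve.map
    simp only [ea, eb]
  unfold trc
  rw [er]

theorem dd_congr {a b a' b' : 𝓞 K} (v : HeightOneSpectrum (𝓞 K)) (ha : a - a' ∈ v.asIdeal)
    (hb : b - b' ∈ v.asIdeal) : dd a b ∈ v.asIdeal ↔ dd a' b' ∈ v.asIdeal := by
  have ea : Ideal.Quotient.mk v.asIdeal a = Ideal.Quotient.mk v.asIdeal a' := Ideal.Quotient.eq.mpr ha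
  have eb : Ideal.Quotient.mk v.asIdeal b = Ideal.Quotient.mk v.asIdeal b' := Ideal.Quotient.eq.mpr hb
  rw [← Ideal.Quotient.eq_zero_iff_mem, ← Ideal.Quotient.eq_zero_iff_mem]
  unfold dd
  simp only [map_mul, map_add, map_pow, ea, eb]

end

/-! ### Shifts -/

section
variable {ι : Type} [Fintype ι] [DecidableEq ι]

theorem EM_shift_fam (p : ℕ) [Fact p.Prime] {Y : Type*} [Fintype Y] [Nonempty Y] (e : Y → ι → ZMod p)
    (G : (ι → ZMod p) → ℝ) : EM p G = EM p (fun r => (∑ y : Y, G (r + e y)) / Fintype.card Y) := by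
  have hc : (Fintype.card Y : ℝ) ≠ 0 := by
    have := Fintype.card_pos (α := Y)
    exact_mod_cast this.ne'
  unfold EM
  congr 1
  have h1 : ∀ y : Y, ∑ r : ι → ZMod p, G (r + e y) = ∑ r : ι → ZMod p, G r := fun y =>
    Fintype.sum_equiv (Equiv.addRight (e y)) _ _ fun r => rfl
  rw [← Finset.sum_div, Finset.sum_comm, Finset.sum_congr rfl fun y _ => h1 y, Finset.sum_const,
    nsmul_eq_mul, Finset.card_univ]
  field_simp

end

section
variable {K : Type} [Field K] [NumberField K] {ι : Type} [Fintype ι] [DecidableEq ι]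

/-- the parameters allow translations of `b` -/
structure Shift (a b : (ι → ℤ) → 𝓞 K) : Prop where
  ca : ∀ (p : ℕ) (c c' : ι → ℤ), red p c = red p c' → ((p : ℕ) : 𝓞 K) ∣ a c - a c'
  cb : ∀ (p : ℕ) (c c' : ι → ℤ), red p c = red p c' → ((p : ℕ) : 𝓞 K) ∣ b c - b c'
  sh : ∀ x : 𝓞 K, ∃ e : ι → ℤ, ∀ c : ι → ℤ, a (c + e) = a c ∧ b (c + e) = b c + x

omit [Fintype ι] [DecidableEq ι] in
theorem Shift.mod {a b : (ι → ℤ) → 𝓞 K} (h : Shift a b) (p : ℕ) [NeZero p] (x : 𝓞 K) :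
    ∃ e : ι → ZMod p, ∀ r : ι → ZMod p, ((p : ℕ) : 𝓞 K) ∣ a (liftp (r + e)) - a (liftp r) ∧
      ((p : ℕ) : 𝓞 K) ∣ b (liftp (r + e)) - (b (liftp r) + x) := by
  obtain ⟨e, he⟩ := h.sh x
  refine ⟨red p e, fun r => ?_⟩
  have h1 : red p (liftp (r + red p e)) = red p (liftp r + e) := by
    rw [red_liftp]
    funext i
    simp [red, liftp]
  obtain ⟨h2, h3⟩ := he (liftp r)
  have h4 := h.ca p _ _ h1
  have h5 := h.cb p _ _ h1
  rw [h2] at h4
  rw [h3] at h5
  exact ⟨h4, h5⟩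

end

end Pool.Agent.N534.AS
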