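import Pool.Agent.N534.AS.Two

/-!
# The limit law of the Asai L-functions
-/

set_option autoImplicit false

namespace Pool.Agent.N534.AS.State

open NumberField IsDedekindDomain Finset Filter Topology MeasureTheory
open Pool.Agent.Y722.HS (red)
open Pool.Agent.N534.EC
open Pool.Agent.N534.LL (Sys PP PS Y liftp law red_liftp)
open Pool.Agent.N534.PS (Pow lamT trm rect)
open Pool.Agent.N534.AS
open Pool.Agent.N534.EC.State (Residues uniform lift box primesUpTo range_PS)

variable {K : Type} [Field K] [NumberField K]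

/-- The logarithm of the random Euler product over the primes `p ≤ z`. -/
noncomputable def randomLog {ι : Type} (S : Finset ℕ) (a b : (ι → ℤ) → 𝓞 K) (z : ℕ) (s : ℂ) (x : Residues ι) : ℂ :=
  ∑ p ∈ primesUpTo z, logFactor S (a (lift x p)) (b (lift x p)) s (p : ℕ)

variable {ι : Type} [Fintype ι] [DecidableEq ι]

theorem randomLog_eq (S : Finset ℕ) {a b : (ι → ℤ) → 𝓞 K} (h : Shift a b) (z : ℕ) (s : ℂ) (x : Residues ι) :
    randomLog S a b z s x = Y (lamT (Module.finrank ℚ K) 5 (TA a b) (BA S a b)) z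
      (s - (1 + (Module.finrank ℚ K : ℂ) / 2)) x := by
  unfold randomLog Y
  rw [range_PS]
  exact Finset.sum_congr rfl fun p _ => logFactor_eq S h (lift x p) s p

/-- **The limit law.** -/
theorem lawA (S : Finset ℕ) {a b : (ι → ℤ) → 𝓞 K} (h : Shift a b)
    {κ : Type} [Fintype κ] (s : κ → ℂ) (hs : ∀ k, 1 + (Module.finrank ℚ K : ℝ) / 2 ≤ (s k).re) :
    ∃ Z : κ → Residues ι → ℂ, (∀ k, Measurable (Z k)) ∧ (∀ k, Integrable (Z k) (uniform ι)) ∧
      (∀ k, Tendsto (fun z : ℕ => ∫ x, ‖randomLog S a b z (s k) x - Z k x‖ ∂(uniform ι)) atTop (𝓝 0)) ∧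
      ∀ σ : ℕ → κ → ℂ, (∀ k, Tendsto (fun H => σ H k) atTop (𝓝 (s k))) →
        (∀ k, Tendsto (fun H : ℕ => ((σ H k).re - (1 + (Module.finrank ℚ K : ℝ) / 2)) * Real.log H) atTop atTop) →
        (∀ F : (κ → ℂ) → ℝ, Continuous F → (∃ C : ℝ, ∀ y, |F y| ≤ C) →
          Tendsto (fun H : ℕ => (∑ c ∈ box ι H, F (fun k => LSeries S (a c) (b c) (σ H k))) / (box ι H).card)
            atTop (𝓝 (∫ x, F (fun k => Complex.exp (Z k x)) ∂(uniform ι)))) ∧
        (∀ E : Set (κ → ℂ), MeasurableSet E →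
          uniform ι {x | (fun k => Complex.exp (Z k x)) ∈ frontier E} = 0 →
          Tendsto (fun H : ℕ => (open Classical in ((box ι H).filter
            (fun c => (fun k => LSeries S (a c) (b c) (σ H k)) ∈ E)).card : ℝ) / (box ι H).card) atTop
            (𝓝 ((uniform ι).real {x | (fun k => Complex.exp (Z k x)) ∈ E}))) := by
  set e : ℂ := 1 + (Module.finrank ℚ K : ℂ) / 2 with he
  have hre : ∀ z : ℂ, (z - e).re = z.re - (1 + (Module.finrank ℚ K : ℝ) / 2) := fun z => re_sub z _
  obtain ⟨Z, h1, h2, h3, h4⟩ := law (powA h S).sys (fun k => s k - e) (fun k => by rw [hre]; linarith [hs k])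
  refine ⟨Z, h1, h2, fun k => ?_, fun σ hσ hσl => ?_⟩
  · have h5 := h3 k
    simp only [he, ← randomLog_eq S h] at h5
    exact h5
  · have hlogN : Tendsto (fun H : ℕ => Real.log H) atTop atTop :=
      Real.tendsto_log_atTop.comp tendsto_natCast_atTop_atTop
    have hpos : ∀ k, ∀ᶠ H : ℕ in atTop, 1 + (Module.finrank ℚ K : ℝ) / 2 < (σ H k).re := by
      intro k
      filter_upwards [(hσl k).eventually_gt_atTop 0, hlogN.eventually_gt_atTop 0] with H h1 h2
      have := pos_of_mul_pos_left h1 h2.le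
      linarith
    exact h4 (fun H k => σ H k - e) (fun k => (hσ k).sub_const _) (fun k => by
      simpa only [hre] using hσl k) (fun H c k => LSeries S (a c) (b c) (σ H k)) (by
      filter_upwards [eventually_all.mpr hpos] with H hH c _ k
      rw [LSeries_eq S h c _ (hH k), logL_eq S h])

end Pool.Agent.N534.AS.State
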