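import Pool.Agent.N534.AS.Asai
import Pool.Agent.N534.PS.Main
import Pool.Agent.N534.EC.State

/-!
# The Asai L-functions in terms of point counts
-/

set_option autoImplicit false

namespace Pool.Agent.N534.AS.State

open NumberField IsDedekindDomain Finset Filter Topology MeasureTheory
open Pool.Agent.H921R2.TatePole (nm two_le_nm below deg nm_eq below_eq_of_mem)
open Pool.Agent.H341R2.EC (trc aff)
open Pool.Agent.Y722.HS (red)
open Pool.Agent.N534.EC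
open Pool.Agent.N534.LL (Sys PP PS Y liftp law red_liftp)
open Pool.Agent.N534.PS (Pow lamT trm rect)
open Pool.Agent.N534.AS

section
variable {K : Type} [Field K] [NumberField K]

/-- `6 (4 a³ + 27 b²)` -/
noncomputable def disc (a b : 𝓞 K) : 𝓞 K := 6 * (4 * a ^ 3 + 27 * b ^ 2)

/-- the trace of Frobenius -/
noncomputable def trace (a b : 𝓞 K) (v : HeightOneSpectrum (𝓞 K)) : ℤ :=
  ((Ideal.absNorm v.asIdeal : ℕ) : ℤ) -
    ((Nat.card {p : (𝓞 K ⧸ v.asIdeal) × (𝓞 K ⧸ v.asIdeal) //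
      p.2 ^ 2 = p.1 ^ 3 + Ideal.Quotient.mk v.asIdeal a * p.1 + Ideal.Quotient.mk v.asIdeal b} : ℕ) : ℤ)

/-- the eigenvalue -/
noncomputable def eigenvalue (a : ℤ) (q : ℕ) : ℂ :=
  ((a : ℂ) + Complex.I * ((Real.sqrt (4 * q - a ^ 2) : ℝ) : ℂ)) / 2

/-- the power sum -/
noncomputable def powerSum (a : ℤ) (q k : ℕ) : ℝ := 2 * (eigenvalue a q ^ k).re

/-- the trace on the tensor induction -/
noncomputable def asaiTrace (a b : 𝓞 K) (p k : ℕ) : ℝ :=
  ∏ᶠ v : {v : HeightOneSpectrum (𝓞 K) // (p : 𝓞 K) ∈ v.asIdeal},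
    powerSum (trace a b v.1) (Ideal.absNorm v.1.asIdeal) (k / Nat.gcd k (Nat.log p (Ideal.absNorm v.1.asIdeal))) ^
      Nat.gcd k (Nat.log p (Ideal.absNorm v.1.asIdeal))

open Classical in
/-- the logarithm of the Euler factor -/
noncomputable def logFactor (S : Finset ℕ) (a b : 𝓞 K) (s : ℂ) (p : ℕ) : ℂ :=
  if p ∈ S ∨ ∃ v : HeightOneSpectrum (𝓞 K), (p : 𝓞 K) ∈ v.asIdeal ∧ disc a b ∈ v.asIdeal then 0 else
    ∑' k : ℕ, (asaiTrace a b p (k + 1) : ℂ) / ((k : ℂ) + 1) * (p : ℂ) ^ (-(((k : ℂ) + 1) * s))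

theorem trace_eq (a b : 𝓞 K) (v : HeightOneSpectrum (𝓞 K)) : trace a b v = trc (shm a b) v := by
  unfold trace
  rw [← Pool.Agent.N534.EC.State.aff_shm]
  rfl

theorem mem_iff (p : Nat.Primes) (v : HeightOneSpectrum (𝓞 K)) : ((p : ℕ) : 𝓞 K) ∈ v.asIdeal ↔ below v = p := by
  refine ⟨fun h => below_eq_of_mem h, fun h => ?_⟩
  have h1 := (nm_eq v).2.2
  rwa [h] at h1

theorem fprod_eq (p : Nat.Primes) (f : HeightOneSpectrum (𝓞 K) → ℝ) :
    ∏ᶠ v : {v : HeightOneSpectrum (𝓞 K) // ((p : ℕ) : 𝓞 K) ∈ v.asIdeal}, f v.1 =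
      ∏ v : {v : HeightOneSpectrum (𝓞 K) // below v = p}, f v.1 := by
  have h1 := finprod_comp_equiv (Equiv.subtypeEquivRight (mem_iff (K := K) p))
    (f := fun v : {v : HeightOneSpectrum (𝓞 K) // below v = p} => f v.1)
  rw [← finprod_eq_prod_of_fintype, ← h1]
  rfl

theorem log_deg (p : Nat.Primes) (v : HeightOneSpectrum (𝓞 K)) (h : below v = p) :
    Nat.log (p : ℕ) (Ideal.absNorm v.asIdeal) = deg v := by
  have h1 := (nm_eq v).1
  rw [h] at h1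
  have h2 : Ideal.absNorm v.asIdeal = (p : ℕ) ^ deg v := h1
  rw [h2, Nat.log_pow p.2.one_lt]

theorem asaiTrace_eq (a b : 𝓞 K) (p : Nat.Primes) (k : ℕ) : asaiTrace a b (p : ℕ) k = ta a b p k := by
  unfold asaiTrace ta
  have h1 := fprod_eq p (fun v : HeightOneSpectrum (𝓞 K) =>
    powerSum (trace a b v) (Ideal.absNorm v.asIdeal) (k / Nat.gcd k (Nat.log (p : ℕ) (Ideal.absNorm v.asIdeal))) ^
      Nat.gcd k (Nat.log (p : ℕ) (Ideal.absNorm v.asIdeal)))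
  rw [h1]
  refine Finset.prod_congr rfl fun v _ => ?_
  rw [log_deg p v.1 v.2, trace_eq]
  rfl

variable {ι : Type} [Fintype ι] [DecidableEq ι]

omit [Fintype ι] [DecidableEq ι] in
theorem lift_dvd {a : (ι → ℤ) → 𝓞 K}
    (ha : ∀ (p : ℕ) (c c' : ι → ℤ), red p c = red p c' → ((p : ℕ) : 𝓞 K) ∣ a c - a c') (p : Nat.Primes)
    (c : ι → ℤ) : ((p : ℕ) : 𝓞 K) ∣ a (liftp (red (p : ℕ) c)) - a c :=
  ha (p : ℕ) _ _ (by rw [red_liftp])

theorem BA_iff (S : Finset ℕ) {a b : (ι → ℤ) → 𝓞 K} (h : Shift a b) (p : Nat.Primes) (c : ι → ℤ) :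
    BA S a b (p : ℕ) (red (p : ℕ) c) ↔ ((p : ℕ) ∈ S ∨ ∃ v : HeightOneSpectrum (𝓞 K),
      ((p : ℕ) : 𝓞 K) ∈ v.asIdeal ∧ disc (a c) (b c) ∈ v.asIdeal) := by
  unfold BA
  refine or_congr Iff.rfl (exists_congr fun v => and_congr_right fun hv => ?_)
  exact dd_congr v (Ideal.mem_of_dvd _ (lift_dvd h.ca p c) hv) (Ideal.mem_of_dvd _ (lift_dvd h.cb p c) hv)

theorem bad_small (a b : 𝓞 K) (p : Nat.Primes) (hp : (p : ℕ) < 5) :
    ∃ v : HeightOneSpectrum (𝓞 K), ((p : ℕ) : 𝓞 K) ∈ v.asIdeal ∧ disc a b ∈ v.asIdeal := by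
  obtain ⟨v, hv⟩ := exists_above (K := K) p
  have hm := (mem_iff p v).mpr hv
  refine ⟨v, hm, ?_⟩
  unfold disc
  apply Ideal.mul_mem_right
  have h1 : (p : ℕ) ∣ 6 := by
    have h2 := p.2.two_le
    have h3 := p.2
    interval_cases h : (p : ℕ)
    · norm_num
    · norm_num
    · exact absurd h3 (by norm_num)
  obtain ⟨m, hm'⟩ := h1
  have : (6 : 𝓞 K) = ((p : ℕ) : 𝓞 K) * (m : 𝓞 K) := by
    have := congrArg (Nat.cast : ℕ → 𝓞 K) hm'
    push_cast at this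
    exact this
  rw [this]
  exact Ideal.mul_mem_right _ _ hm

theorem logFactor_eq (S : Finset ℕ) {a b : (ι → ℤ) → 𝓞 K} (h : Shift a b) (c : ι → ℤ) (s : ℂ) (p : Nat.Primes) :
    logFactor S (a c) (b c) s (p : ℕ) = lamT (Module.finrank ℚ K) 5 (TA a b) (BA S a b) c (p : ℕ)
      (s - (1 + (Module.finrank ℚ K : ℂ) / 2)) := by
  have hB := BA_iff S h p c
  unfold logFactor lamT
  by_cases h5 : 5 ≤ (p : ℕ)
  · by_cases hb : BA S a b (p : ℕ) (red (p : ℕ) c)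
    · rw [if_pos (hB.mp hb), if_neg (fun h => h.2.2 hb)]
    · rw [if_neg (fun h => hb (hB.mpr h)), if_pos ⟨p.2, h5, hb⟩]
      refine tsum_congr fun k => ?_
      unfold trm
      have h1 : TA a b (p : ℕ) (k + 1) (red (p : ℕ) c) = asaiTrace (a c) (b c) (p : ℕ) (k + 1) := by
        rw [TA_prime a b p, asaiTrace_eq]
        exact ta_congr p (lift_dvd h.ca p c) (lift_dvd h.cb p c) (k + 1)
      rw [h1]
      congr 2
      ring
  · rw [if_pos (Or.inr (bad_small (a c) (b c) p (by omega))), if_neg (fun h => h5 h.2.1)]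

/-- the logarithm of the L-function -/
noncomputable def logL (S : Finset ℕ) (a b : 𝓞 K) (s : ℂ) : ℂ := ∑' p : Nat.Primes, logFactor S a b s (p : ℕ)

/-- the L-function -/
noncomputable def LSeries (S : Finset ℕ) (a b : 𝓞 K) (s : ℂ) : ℂ :=
  ∏' p : Nat.Primes, Complex.exp (logFactor S a b s (p : ℕ))

theorem logL_eq (S : Finset ℕ) {a b : (ι → ℤ) → 𝓞 K} (h : Shift a b) (c : ι → ℤ) (s : ℂ) :
    logL S (a c) (b c) s = ∑' p : Nat.Primes, lamT (Module.finrank ℚ K) 5 (TA a b) (BA S a b) c (p : ℕ)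
      (s - (1 + (Module.finrank ℚ K : ℂ) / 2)) :=
  tsum_congr fun p => logFactor_eq S h c s p

theorem re_sub (s : ℂ) (d : ℕ) : (s - (1 + (d : ℂ) / 2)).re = s.re - (1 + (d : ℝ) / 2) := by simp

theorem im_sub (s : ℂ) (d : ℕ) : (s - (1 + (d : ℂ) / 2)).im = s.im := by simp

theorem LSeries_eq (S : Finset ℕ) {a b : (ι → ℤ) → 𝓞 K} (h : Shift a b) (c : ι → ℤ) (s : ℂ)
    (hs : 1 + (Module.finrank ℚ K : ℝ) / 2 < s.re) :
    LSeries S (a c) (b c) s = Complex.exp (logL S (a c) (b c) s) := by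
  rw [logL_eq S h]
  unfold LSeries
  rw [← (powA h S).exp_lam c (by rw [re_sub]; linarith)]
  exact tprod_congr fun p => by rw [logFactor_eq S h]

end

end Pool.Agent.N534.AS.State
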