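import Pool.Agent.N534.AS.State

/-!
# Tensor products of random elliptic curves over a number field
-/

set_option autoImplicit false

namespace Pool.Agent.N534.AS

open NumberField IsDedekindDomain Finset
open Pool.Agent.H921R2.TatePole (nm two_le_nm below deg nm_eq below_le_nm fiber_card_le below_eq_of_mem)
open Pool.Agent.H341R2.EC (trc csum mk_ne)
open Pool.Agent.Y722.HS (EM red EM_mono EM_const p_pos)
open Pool.Agent.Y722.LS (EM_mul)
open Pool.Agent.N534.EC
open Pool.Agent.N534.LL (liftp red_liftp)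
open Pool.Agent.N534.PS (Pow p_two lamT trm)

variable {K : Type} [Field K] [NumberField K] {R : Type} [Fintype R] [DecidableEq R]

open Classical in
/-- the trace of the `k`-th power of Frobenius: the sum over the primes above `p` -/
noncomputable def tt (a b : R → 𝓞 K) (p : Nat.Primes) (k : ℕ) : ℝ :=
  ∑ v : {v : HeightOneSpectrum (𝓞 K) // below v = p}, if deg v.1 ∣ k then
    (deg v.1 : ℝ) * ∏ i, ps (trc (shm (a i) (b i)) v.1) (nm v.1) (k / deg v.1) else 0

theorem tt_le (a b : R → 𝓞 K) (p : Nat.Primes) (h5 : 5 ≤ (p : ℕ)) (k : ℕ) :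
    |tt a b p k| ≤ dK K * 2 ^ Fintype.card R * ((p : ℕ) : ℝ) ^ ((k : ℝ) * ((Fintype.card R : ℝ) / 2)) := by
  classical
  have hp2 : (2 : ℝ) ≤ (p : ℕ) := by exact_mod_cast p.2.two_le
  have hp0 : (0 : ℝ) < (p : ℕ) := by linarith
  set X : ℝ := ((p : ℕ) : ℝ) ^ ((k : ℝ) * ((Fintype.card R : ℝ) / 2)) with hX
  have hX0 : 0 ≤ X := by positivity
  unfold tt
  refine (Finset.abs_sum_le_sum_abs _ _).trans ?_
  have h1 : ∀ v : {v : HeightOneSpectrum (𝓞 K) // below v = p},
      |if deg v.1 ∣ k then (deg v.1 : ℝ) * ∏ i, ps (trc (shm (a i) (b i)) v.1) (nm v.1) (k / deg v.1) else 0| ≤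
        (deg v.1 : ℝ) * (2 ^ Fintype.card R * X) := by
    intro v
    have h6 := six_notMem h5 v.1 v.2
    split_ifs with hk
    · rw [abs_mul, Finset.abs_prod, Nat.abs_cast]
      have h2 : ∀ i : R, |ps (trc (shm (a i) (b i)) v.1) (nm v.1) (k / deg v.1)| ≤
          2 * Real.sqrt (nm v.1) ^ (k / deg v.1) := fun i => ps_le (trc_hasse _ v.1 h6) _
      have h3 := Finset.prod_le_prod (s := Finset.univ) (fun i _ => abs_nonneg _) (fun i _ => h2 i)
      rw [Finset.prod_const, Finset.card_univ, mul_pow] at h3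
      have h4 : (Real.sqrt (nm v.1) ^ (k / deg v.1)) ^ Fintype.card R = X := by
        obtain ⟨m, hm⟩ := hk
        have hdeg := (nm_eq v.1).2.1
        have h5 : k / deg v.1 = m := by rw [hm, Nat.mul_div_cancel_left _ hdeg]
        have h6 : (nm v.1 : ℝ) = ((p : ℕ) : ℝ) ^ deg v.1 := by
          have := (nm_eq v.1).1
          rw [v.2] at this
          exact_mod_cast this
        rw [h5, h6, Real.sqrt_eq_rpow, hX, ← Real.rpow_natCast, ← Real.rpow_natCast, ← Real.rpow_natCast,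
          ← Real.rpow_mul hp0.le, ← Real.rpow_mul hp0.le, ← Real.rpow_mul hp0.le]
        congr 1
        rw [hm]
        push_cast
        ring
      rw [h4] at h3
      exact mul_le_mul_of_nonneg_left h3 (by positivity)
    · rw [abs_zero]
      positivity
  refine (Finset.sum_le_sum fun v _ => h1 v).trans ?_
  rw [← Finset.sum_mul]
  have h2 : ∑ v : {v : HeightOneSpectrum (𝓞 K) // below v = p}, (deg v.1 : ℝ) ≤ dK K := by
    unfold dK
    have := sum_deg_le (K := K) p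
    exact_mod_cast this
  have h3 : 0 ≤ 2 ^ Fintype.card R * X := by positivity
  calc _ ≤ dK K * (2 ^ Fintype.card R * X) := mul_le_mul_of_nonneg_right h2 h3
    _ = _ := by ring

theorem tt_congr {a b a' b' : R → 𝓞 K} (p : Nat.Primes) (ha : ∀ i, ((p : ℕ) : 𝓞 K) ∣ a i - a' i)
    (hb : ∀ i, ((p : ℕ) : 𝓞 K) ∣ b i - b' i) (k : ℕ) : tt a b p k = tt a' b' p k := by
  unfold tt
  refine Finset.sum_congr rfl fun v _ => ?_
  have h1 := (nm_eq v.1).2.2
  rw [v.2] at h1
  have h2 : ∀ i, trc (shm (a i) (b i)) v.1 = trc (shm (a' i) (b' i)) v.1 := fun i =>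
    trc_congr v.1 (Ideal.mem_of_dvd v.1.asIdeal (ha i) h1) (Ideal.mem_of_dvd v.1.asIdeal (hb i) h1)
  simp only [h2]

open Classical in
theorem tt_one (a b : R → 𝓞 K) (p : Nat.Primes) : tt a b p 1 =
    ∑ v : {v : HeightOneSpectrum (𝓞 K) // below v = p}, if deg v.1 = 1 then
      ∏ i, (trc (shm (a i) (b i)) v.1 : ℝ) else 0 := by
  unfold tt
  refine Finset.sum_congr rfl fun v _ => ?_
  by_cases h : deg v.1 = 1
  · rw [if_pos h, h, if_pos (one_dvd 1), Nat.cast_one, one_mul, Nat.div_one]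
    exact Finset.prod_congr rfl fun i _ => ps_one _ _
  · rw [if_neg h, if_neg (fun h2 => h (Nat.dvd_one.mp h2))]

section
variable {ι : Type} [Fintype ι] [DecidableEq ι]

/-- the parameters allow independent translations of the constant coefficients -/
structure ShiftR (a b : R → (ι → ℤ) → 𝓞 K) : Prop where
  ca : ∀ (i : R) (p : ℕ) (c c' : ι → ℤ), red p c = red p c' → ((p : ℕ) : 𝓞 K) ∣ a i c - a i c'
  cb : ∀ (i : R) (p : ℕ) (c c' : ι → ℤ), red p c = red p c' → ((p : ℕ) : 𝓞 K) ∣ b i c - b i c'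
  sh : ∀ (i0 : R) (x : 𝓞 K), ∃ e : ι → ℤ, ∀ c : ι → ℤ, (∀ i, a i (c + e) = a i c) ∧
    (∀ i, b i (c + e) = b i c + if i = i0 then x else 0)

omit [Fintype R] [DecidableEq R] [Fintype ι] [DecidableEq ι] in
theorem red_shift (p : ℕ) [NeZero p] (r : ι → ZMod p) (e : ι → ℤ) :
    red p (liftp (r + red p e)) = red p (liftp r + e) := by
  rw [red_liftp]
  funext i
  simp [red, liftp]

omit [Fintype R] [Fintype ι] [DecidableEq ι] in
theorem exists_shiftR {a b : R → (ι → ℤ) → 𝓞 K} (h : ShiftR a b) (i0 : R) (p : Nat.Primes) [Fact (p : ℕ).Prime]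
    (v : {v : HeightOneSpectrum (𝓞 K) // below v = p}) :
    ∃ e : (𝓞 K ⧸ v.1.asIdeal) → ι → ZMod (p : ℕ), ∀ (y : 𝓞 K ⧸ v.1.asIdeal) (r : ι → ZMod (p : ℕ)),
      (∀ i, a i (liftp (r + e y)) - a i (liftp r) ∈ v.1.asIdeal) ∧
      (∀ i, i ≠ i0 → b i (liftp (r + e y)) - b i (liftp r) ∈ v.1.asIdeal) ∧
      Ideal.Quotient.mk v.1.asIdeal (b i0 (liftp (r + e y))) =
        Ideal.Quotient.mk v.1.asIdeal (b i0 (liftp r)) + y := by
  choose x hx using fun y : 𝓞 K ⧸ v.1.asIdeal => Ideal.Quotient.mk_surjective y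
  choose e he using fun y => h.sh i0 (x y)
  refine ⟨fun y => red (p : ℕ) (e y), fun y r => ?_⟩
  have hmem : ((p : ℕ) : 𝓞 K) ∈ v.1.asIdeal := by
    have := (nm_eq v.1).2.2
    rwa [v.2] at this
  have h1 := red_shift (p : ℕ) r (e y)
  obtain ⟨h2, h3⟩ := he y (liftp r)
  refine ⟨fun i => ?_, fun i hi => ?_, ?_⟩
  · have h4 := h.ca i (p : ℕ) _ _ h1
    rw [h2 i] at h4
    exact Ideal.mem_of_dvd _ h4 hmem
  · have h4 := h.cb i (p : ℕ) _ _ h1
    rw [h3 i, if_neg hi, add_zero] at h4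
    exact Ideal.mem_of_dvd _ h4 hmem
  · have h4 := h.cb i0 (p : ℕ) _ _ h1
    rw [h3 i0, if_pos rfl] at h4
    have h5 : Ideal.Quotient.mk v.1.asIdeal (b i0 (liftp (r + red (p : ℕ) (e y)))) =
        Ideal.Quotient.mk v.1.asIdeal (b i0 (liftp r) + x y) :=
      Ideal.Quotient.eq.mpr (Ideal.mem_of_dvd _ h4 hmem)
    rw [h5, map_add, hx y]

open Classical in
/-- the power sums as functions of the residue classes -/
noncomputable def TR (a b : R → (ι → ℤ) → 𝓞 K) (p : ℕ) (k : ℕ) (r : ι → ZMod p) : ℝ :=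
  if h : p.Prime then tt (fun i => a i (liftp r)) (fun i => b i (liftp r)) (mkP p h) k else 0

/-- the exceptional classes -/
def BR (a b : R → (ι → ℤ) → 𝓞 K) (p : ℕ) (r : ι → ZMod p) : Prop :=
  ∃ (i : R) (v : HeightOneSpectrum (𝓞 K)), (p : 𝓞 K) ∈ v.asIdeal ∧
    dd (a i (liftp r)) (b i (liftp r)) ∈ v.asIdeal

omit [DecidableEq R] [Fintype ι] [DecidableEq ι] in
theorem TR_prime (a b : R → (ι → ℤ) → 𝓞 K) (pp : Nat.Primes) (k : ℕ) (r : ι → ZMod (pp : ℕ)) :
    TR a b (pp : ℕ) k r = tt (fun i => a i (liftp r)) (fun i => b i (liftp r)) pp k := by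
  unfold TR
  rw [dif_pos pp.2]
  rfl

variable (K R) in
/-- a constant -/
noncomputable def DR : ℝ := dK K * 2 ^ Fintype.card R + 2 * dK K * Fintype.card R

omit [DecidableEq R] in
theorem pow_le_DR : dK K * (2 : ℝ) ^ Fintype.card R ≤ DR K R := by
  unfold DR
  have h2 := dK_nonneg (K := K)
  have : 0 ≤ 2 * dK K * Fintype.card R := by positivity
  linarith

omit [DecidableEq R] in
theorem one_le_DR : 1 ≤ DR K R := by
  refine le_trans ?_ pow_le_DR
  have h1 : (1 : ℝ) ≤ 2 ^ Fintype.card R := one_le_pow₀ (by norm_num)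
  have h2 := one_le_dK (K := K)
  nlinarith

theorem mean_TR [Nonempty R] {a b : R → (ι → ℤ) → 𝓞 K} (h : ShiftR a b) (pp : Nat.Primes)
    [hp : Fact (pp : ℕ).Prime] (h5 : 5 ≤ (pp : ℕ)) : EM (pp : ℕ) (TR a b (pp : ℕ) 1) = 0 := by
  classical
  obtain ⟨i0⟩ := ‹Nonempty R›
  have e1 : TR a b (pp : ℕ) 1 = fun r : ι → ZMod (pp : ℕ) =>
      ∑ v : {v : HeightOneSpectrum (𝓞 K) // below v = pp}, if deg v.1 = 1 then
        ∏ i, (trc (shm (a i (liftp r)) (b i (liftp r))) v.1 : ℝ) else 0 := by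
    funext r
    rw [TR_prime, tt_one]
  rw [e1, EM_sum']
  refine Finset.sum_eq_zero fun v _ => ?_
  by_cases hdeg : deg v.1 = 1
  · simp only [if_pos hdeg]
    obtain ⟨e, he⟩ := exists_shiftR h i0 pp v
    rw [EM_shift_fam (ι := ι) (pp : ℕ) e]
    have h6 := six_notMem h5 v.1 v.2
    have h6' : (6 : 𝓞 K ⧸ v.1.asIdeal) ≠ 0 := by
      have := mk_ne h6
      rwa [map_ofNat] at this
    have h2 : (fun r : ι → ZMod (pp : ℕ) => (∑ y : 𝓞 K ⧸ v.1.asIdeal,
        ∏ i, (trc (shm (a i (liftp (r + e y))) (b i (liftp (r + e y)))) v.1 : ℝ)) /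
        (Fintype.card (𝓞 K ⧸ v.1.asIdeal) : ℝ)) = fun _ => 0 := by
      funext r
      have h3 : ∀ y : 𝓞 K ⧸ v.1.asIdeal,
          ∏ i, (trc (shm (a i (liftp (r + e y))) (b i (liftp (r + e y)))) v.1 : ℝ) =
          -(csum (-48 * Ideal.Quotient.mk v.1.asIdeal (a i0 (liftp r)))
            (-864 * (Ideal.Quotient.mk v.1.asIdeal (b i0 (liftp r)) + y)) : ℝ) *
          ∏ i ∈ Finset.univ.erase i0, (trc (shm (a i (liftp r)) (b i (liftp r))) v.1 : ℝ) := by
        intro y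
        obtain ⟨g1, g2, g3⟩ := he y r
        rw [← Finset.mul_prod_erase Finset.univ _ (Finset.mem_univ i0)]
        congr 1
        · rw [trc_mk _ _ v.1 h6, g3, Ideal.Quotient.eq.mpr (g1 i0)]
          push_cast
          rfl
        · refine Finset.prod_congr rfl fun i hi => ?_
          rw [trc_congr v.1 (g1 i) (g2 i (Finset.ne_of_mem_erase hi))]
      rw [Finset.sum_congr rfl fun y _ => h3 y, ← Finset.sum_mul, Finset.sum_neg_distrib]
      have h4 := csum_sum h6' (-48 * Ideal.Quotient.mk v.1.asIdeal (a i0 (liftp r)))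
        (Ideal.Quotient.mk v.1.asIdeal (b i0 (liftp r)))
      have h5 : (∑ y : 𝓞 K ⧸ v.1.asIdeal, (csum (-48 * Ideal.Quotient.mk v.1.asIdeal (a i0 (liftp r)))
            (-864 * (Ideal.Quotient.mk v.1.asIdeal (b i0 (liftp r)) + y)) : ℝ)) = 0 := by
        rw [← Int.cast_sum, h4, Int.cast_zero]
      rw [h5, neg_zero, zero_mul, zero_div]
    rw [h2, EM_const]
  · simp only [if_neg hdeg]
    rw [EM_const]

theorem bad_oneR {a b : R → (ι → ℤ) → 𝓞 K} (h : ShiftR a b) (i0 : R) (pp : Nat.Primes)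
    [hp : Fact (pp : ℕ).Prime] (h5 : 5 ≤ (pp : ℕ)) (v : {v : HeightOneSpectrum (𝓞 K) // below v = pp}) :
    EM (pp : ℕ) (fun r : ι → ZMod (pp : ℕ) => open Classical in
      if dd (a i0 (liftp r)) (b i0 (liftp r)) ∈ v.1.asIdeal then (1 : ℝ) else 0) ≤ 2 / (pp : ℕ) := by
  classical
  have hp0 := p_pos (p := (pp : ℕ))
  obtain ⟨e, he⟩ := exists_shiftR h i0 pp v
  have h1 := EM_shift_fam (ι := ι) (pp : ℕ) e (fun r : ι → ZMod (pp : ℕ) =>
      if dd (a i0 (liftp r)) (b i0 (liftp r)) ∈ v.1.asIdeal then (1 : ℝ) else 0)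
  rw [h1]
  have h6 := six_notMem h5 v.1 v.2
  have h6' : (6 : 𝓞 K ⧸ v.1.asIdeal) ≠ 0 := by
    have := mk_ne h6
    rwa [map_ofNat] at this
  have hcard : (Fintype.card (𝓞 K ⧸ v.1.asIdeal) : ℝ) = nm v.1 := by
    rw [Pool.Agent.H341R2.card_v]
  have hq : ((pp : ℕ) : ℝ) ≤ nm v.1 := nm_ge v.1 v.2
  have h2 : ∀ r : ι → ZMod (pp : ℕ), (∑ y : 𝓞 K ⧸ v.1.asIdeal,
      (if dd (a i0 (liftp (r + e y))) (b i0 (liftp (r + e y))) ∈ v.1.asIdeal then (1 : ℝ) else 0)) /
      (Fintype.card (𝓞 K ⧸ v.1.asIdeal) : ℝ) ≤ 2 / (pp : ℕ) := by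
    intro r
    rw [hcard, Finset.sum_ite, Finset.sum_const_zero, add_zero, Finset.sum_const, nsmul_eq_mul, mul_one]
    have h3 : (Finset.univ.filter fun y : 𝓞 K ⧸ v.1.asIdeal =>
        dd (a i0 (liftp (r + e y))) (b i0 (liftp (r + e y))) ∈ v.1.asIdeal) ⊆
        (Finset.univ.filter fun y : 𝓞 K ⧸ v.1.asIdeal =>
          6 * (4 * (Ideal.Quotient.mk v.1.asIdeal (a i0 (liftp r))) ^ 3 +
            27 * (Ideal.Quotient.mk v.1.asIdeal (b i0 (liftp r)) + y) ^ 2) = 0) := by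
      intro y hy
      rw [Finset.mem_filter] at hy ⊢
      refine ⟨Finset.mem_univ _, ?_⟩
      obtain ⟨g1, g2, g3⟩ := he y r
      have h4 := hy.2
      rw [← Ideal.Quotient.eq_zero_iff_mem] at h4
      unfold dd at h4
      simp only [map_mul, map_add, map_pow, map_ofNat] at h4
      rw [g3, Ideal.Quotient.eq.mpr (g1 i0)] at h4
      exact h4
    have h4 := (Finset.card_le_card h3).trans (card_sing h6' _ _)
    have h5 : (((Finset.univ.filter fun y : 𝓞 K ⧸ v.1.asIdeal =>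
        dd (a i0 (liftp (r + e y))) (b i0 (liftp (r + e y))) ∈ v.1.asIdeal).card : ℕ) : ℝ) ≤ 2 := by
      exact_mod_cast h4
    exact div_le_div₀ (by norm_num) h5 hp0 hq
  refine (EM_mono (pp : ℕ) _ (fun _ => 2 / ((pp : ℕ) : ℝ)) h2).trans ?_
  rw [EM_const]

theorem bad_allR {a b : R → (ι → ℤ) → 𝓞 K} (h : ShiftR a b) (pp : Nat.Primes)
    [hp : Fact (pp : ℕ).Prime] (h5 : 5 ≤ (pp : ℕ)) :
    EM (pp : ℕ) (fun r : ι → ZMod (pp : ℕ) => open Classical in if BR a b (pp : ℕ) r then (1 : ℝ) else 0) ≤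
      DR K R / (pp : ℕ) := by
  classical
  have hp0 := p_pos (p := (pp : ℕ))
  have hd := dK_nonneg (K := K)
  have h1 : EM (pp : ℕ) (fun r : ι → ZMod (pp : ℕ) => if BR a b (pp : ℕ) r then (1 : ℝ) else 0) ≤
      EM (pp : ℕ) (fun r : ι → ZMod (pp : ℕ) => ∑ i : R, ∑ v : {v : HeightOneSpectrum (𝓞 K) // below v = pp},
        if dd (a i (liftp r)) (b i (liftp r)) ∈ v.1.asIdeal then (1 : ℝ) else 0) := by
    apply EM_mono
    intro r
    have hnn : ∀ i : R, 0 ≤ ∑ v : {v : HeightOneSpectrum (𝓞 K) // below v = pp},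
        (if dd (a i (liftp r)) (b i (liftp r)) ∈ v.1.asIdeal then (1 : ℝ) else 0) :=
      fun i => Finset.sum_nonneg fun v _ => by split_ifs <;> norm_num
    split_ifs with h2
    · obtain ⟨i, v, hv1, hv2⟩ := h2
      have h3 : below v = pp := below_eq_of_mem hv1
      have h4 := Finset.single_le_sum (s := Finset.univ)
        (f := fun v : {v : HeightOneSpectrum (𝓞 K) // below v = pp} =>
          if dd (a i (liftp r)) (b i (liftp r)) ∈ v.1.asIdeal then (1 : ℝ) else 0)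
        (fun v _ => by split_ifs <;> norm_num) (Finset.mem_univ ⟨v, h3⟩)
      simp only [if_pos hv2] at h4
      refine h4.trans ?_
      exact Finset.single_le_sum (s := Finset.univ)
        (f := fun i : R => ∑ v : {v : HeightOneSpectrum (𝓞 K) // below v = pp},
          (if dd (a i (liftp r)) (b i (liftp r)) ∈ v.1.asIdeal then (1 : ℝ) else 0))
        (fun i _ => hnn i) (Finset.mem_univ i)
    · exact Finset.sum_nonneg fun i _ => hnn i
  refine h1.trans ?_
  rw [EM_sum']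
  have h2 : ∀ i : R, EM (pp : ℕ) (fun r : ι → ZMod (pp : ℕ) =>
      ∑ v : {v : HeightOneSpectrum (𝓞 K) // below v = pp},
        if dd (a i (liftp r)) (b i (liftp r)) ∈ v.1.asIdeal then (1 : ℝ) else 0) ≤ dK K * (2 / (pp : ℕ)) := by
    intro i
    rw [EM_sum']
    exact sum_fib_le (K := K) pp
      (fun v => EM (pp : ℕ) (fun r : ι → ZMod (pp : ℕ) =>
        if dd (a i (liftp r)) (b i (liftp r)) ∈ v.1.asIdeal then (1 : ℝ) else 0))
      (2 / (pp : ℕ)) (by positivity) (fun v => bad_oneR h i pp h5 v)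
  refine (Finset.sum_le_sum fun i _ => h2 i).trans ?_
  rw [Finset.sum_const, nsmul_eq_mul, Finset.card_univ]
  have h3 : (Fintype.card R : ℝ) * (dK K * (2 / (pp : ℕ))) = (2 * dK K * Fintype.card R) / (pp : ℕ) := by ring
  rw [h3]
  unfold DR
  have h4 : 0 ≤ dK K * (2 : ℝ) ^ Fintype.card R := by positivity
  gcongr
  linarith

/-- **The power sums of the tensor product.** -/
theorem powR [Nonempty R] {a b : R → (ι → ℤ) → 𝓞 K} (h : ShiftR a b) :
    Pow (DR K R) (Fintype.card R) 5 (TR a b) (BR a b) where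
  D1 := one_le_DR
  bdk := by
    intro p hp h5 k _ r _
    have h1 := tt_le (fun i => a i (liftp r)) (fun i => b i (liftp r)) (mkP p hp.out) h5 k
    have h2 : TR a b p k r = tt (fun i => a i (liftp r)) (fun i => b i (liftp r)) (mkP p hp.out) k :=
      TR_prime a b (mkP p hp.out) k r
    rw [h2]
    refine h1.trans ?_
    exact mul_le_mul_of_nonneg_right (pow_le_DR (K := K) (R := R)) (by positivity)
  bd1 := by
    intro p hp h5 r
    have h1 := tt_le (fun i => a i (liftp r)) (fun i => b i (liftp r)) (mkP p hp.out) h5 1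
    have h2 : TR a b p 1 r = tt (fun i => a i (liftp r)) (fun i => b i (liftp r)) (mkP p hp.out) 1 :=
      TR_prime a b (mkP p hp.out) 1 r
    rw [h2]
    refine h1.trans ?_
    rw [Nat.cast_one, one_mul]
    exact mul_le_mul_of_nonneg_right (pow_le_DR (K := K) (R := R)) (by positivity)
  mean := by
    intro p hp h5
    have hfp : Fact ((mkP p hp.out : Nat.Primes) : ℕ).Prime := hp
    have h1 : EM p (TR a b p 1) = 0 := mean_TR h (mkP p hp.out) h5
    rw [h1, abs_zero]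
    have := one_le_DR (K := K) (R := R)
    positivity
  bad := by
    intro p hp h5
    have hfp : Fact ((mkP p hp.out : Nat.Primes) : ℕ).Prime := hp
    exact bad_allR h (mkP p hp.out) h5

end

end Pool.Agent.N534.AS
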