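import Pool.Agent.N534.AS.State

/-!
# The Asai L-functions of the curves `y² = x³ + A(u) x + B(u) + t`
-/

set_option autoImplicit false

namespace Pool.Agent.N534.AS

open NumberField IsDedekindDomain Finset
open Pool.Agent.Y722.HS (red)
open Pool.Agent.N534.EC

section
variable {K : Type} [Field K] [NumberField K] {I J : Type} [Fintype I] [Fintype J] [DecidableEq I]
  [DecidableEq J] (ω : Module.Basis I ℤ (𝓞 K)) (A B : MvPolynomial J (𝓞 K))

theorem shift_two : Shift (ca (I := I) A) (cb ω B) where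
  ca := (par_ca A).congr
  cb := (par_cb ω B).congr
  sh := by
    intro x
    refine ⟨Sum.elim (fun i => ω.repr x i) (fun _ => 0), fun c => ⟨?_, ?_⟩⟩
    · unfold ca
      congr 2
      funext j
      simp
    · unfold cb
      have h1 : (fun j => (((c + Sum.elim (fun i => ω.repr x i) (fun _ => 0) : I ⊕ J → ℤ) (Sum.inr j) : ℤ) : 𝓞 K)) =
          fun j => ((c (Sum.inr j) : ℤ) : 𝓞 K) := by
        funext j
        simp
      have h2 := ω.sum_repr x
      have h3 : ∀ i, (((c + Sum.elim (fun i => ω.repr x i) (fun _ => 0) : I ⊕ J → ℤ) (Sum.inl i) : ℤ) : 𝓞 K) * ω i =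
          ((c (Sum.inl i) : ℤ) : 𝓞 K) * ω i + ω.repr x i • ω i := by
        intro i
        rw [Pi.add_apply, Sum.elim_inl, Int.cast_add, add_mul, zsmul_eq_mul]
      rw [h1, Finset.sum_congr rfl fun i _ => h3 i, Finset.sum_add_distrib, h2, add_assoc]

end

end Pool.Agent.N534.AS
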